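import Pool.Agent.Helper22.G4.St.C0

/-! # G4-C2: the lists of facets and of flats have no repetitions -/

namespace Pool.Agent.Helper35.G4

open Pool.Agent.Helper22.G4

theorem opds_nodup (I : NF) : I.opds.Nodup := by
  apply List.Nodup.of_map (f := fun d : OpD => d.n)
  have : I.opds.map (fun d : OpD => d.n) = List.range I.ops.length := by
    unfold NF.opds
    rw [List.map_map]
    have h : ((fun d : OpD => d.n) ∘ fun o : Op × ℕ => I.opd o.2 o.1) = Prod.snd := by
      funext o
      rfl
    rw [h, List.zipIdx_map_snd, List.range'_eq_map_range]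
    simp
  rw [this]
  exact List.nodup_range

/-- the number of the operation, read off a facet -/
def fkey (f : Fc) : ℕ :=
  if f.2.2.2.1 = 0 ∧ f.2.2.2.2 = 0 then f.1.1 / 4 - 1 else (max f.2.2.2.1 f.2.2.2.2 - 1) / 3

theorem fkey_eq (M N : ℕ) (d : OpD) : ∀ f ∈ OpD.facets M N d, fkey f = d.n := by
  intro f hf
  simp only [OpD.facets, List.mem_cons, List.not_mem_nil, or_false] at hf
  rcases hf with h | h | h | h | h | h | h | h | h | h | h | h | h | h | h | h | h | h | h | h |
    h | h | h | h | h | h | h <;> subst h <;>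
    simp [fkey, Fc.Q, Fc.GX, Fc.GY, Fc.T0, Fc.G, OpD.pa, OpD.pb, OpD.pc, OpD.pd, OpD.g0, OpD.g1,
      OpD.g2] <;> omega

theorem facets_nodup {M N : ℕ} {d : OpD} (h1 : 0 < d.y) (h2 : d.y < d.z) (h3 : d.z < d.i)
    (h4 : d.i ≤ d.w) (h5 : d.w < d.v) (h6 : d.v < d.x) (h7 : d.x < N) (h8 : 4 * d.n + 4 ≤ M) :
    (OpD.facets M N d).Nodup := by
  simp only [OpD.facets, List.nodup_cons, List.mem_cons, List.not_mem_nil, not_or, not_false_eq_true,
    List.nodup_nil, and_true]
  repeat' apply And.intro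
  all_goals
    intro h
    simp only [Fc.Q, Fc.GX, Fc.GY, Fc.T0, Fc.G, OpD.pa, OpD.pb, OpD.pc, OpD.pd, OpD.g0, OpD.g1,
      OpD.g2, Prod.mk.injEq] at h
    omega

theorem NF.fcodes_nodup {I : NF} (hI : I.OK) : I.data.fcodes.Nodup := by
  show (Fc.Q I.N 0 1 :: ((List.range (I.M - 1)).flatMap (fun a =>
    (List.range (I.N + 1)).map fun s => Fc.F I.N s (a + 1)) ++
      I.opds.flatMap (OpD.facets I.M I.N))).Nodup
  rw [List.nodup_cons, List.nodup_append]
  refine ⟨?_, ?_, ?_, ?_⟩
  · simp only [List.mem_append, List.mem_flatMap, List.mem_map, List.mem_range, not_or]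
    constructor
    · rintro ⟨a, -, s, -, h⟩
      simp only [Fc.F, Fc.Q, Prod.mk.injEq] at h
      omega
    · rintro ⟨d, -, h⟩
      simp only [OpD.facets, List.mem_cons, List.not_mem_nil, or_false] at h
      rcases h with h | h | h | h | h | h | h | h | h | h | h | h | h | h | h | h | h | h | h | h |
        h | h | h | h | h | h | h <;>
        simp only [Fc.Q, Fc.GX, Fc.GY, Fc.T0, Fc.G, OpD.pa, OpD.pb, OpD.pc, OpD.pd, OpD.g0, OpD.g1,
          OpD.g2, Prod.mk.injEq] at h <;> omega
  · rw [List.nodup_flatMap]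
    refine ⟨fun a _ => ?_, ?_⟩
    · apply List.Nodup.map _ List.nodup_range
      intro s t h
      simp only [Fc.F, Prod.mk.injEq] at h
      omega
    · have := List.nodup_range (n := I.M - 1)
      refine List.Pairwise.imp ?_ this
      intro a b hab
      simp only [Function.onFun]
      rw [List.disjoint_left]
      rintro f h h'
      simp only [List.mem_map] at h h'
      obtain ⟨s, -, rfl⟩ := h
      obtain ⟨t, -, h⟩ := h'
      simp only [Fc.F, Prod.mk.injEq] at h
      omega
  · rw [List.nodup_flatMap]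
    refine ⟨fun d hd => ?_, ?_⟩
    · obtain ⟨h1, h2, h3, h4, h5, h6, h7, h8, -⟩ := NF.opd_ok hI hd
      exact facets_nodup (by omega) (by omega) (by omega) (by omega) (by omega) (by omega)
        (by omega) (by omega)
    · refine List.Pairwise.imp_of_mem ?_ (opds_nodup I)
      intro d e hd he hde
      simp only [Function.onFun]
      rw [List.disjoint_left]
      intro f h h'
      exact hde (NF.opds_inj hd he ((fkey_eq _ _ _ _ h).symm.trans (fkey_eq _ _ _ _ h')))
  · intro f hf g hg h
    subst h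
    simp only [List.mem_flatMap, List.mem_map, List.mem_range] at hf hg
    obtain ⟨a, -, s, -, rfl⟩ := hf
    obtain ⟨d, -, h⟩ := hg
    simp only [OpD.facets, List.mem_cons, List.not_mem_nil, or_false] at h
    rcases h with h | h | h | h | h | h | h | h | h | h | h | h | h | h | h | h | h | h | h | h |
      h | h | h | h | h | h | h <;>
      simp only [Fc.F, Fc.Q, Fc.GX, Fc.GY, Fc.T0, Fc.G, OpD.pa, OpD.pb, OpD.pc, OpD.pd, OpD.g0,
        OpD.g1, OpD.g2, Prod.mk.injEq] at h <;> omega

/-- the number of a page, read off a flat -/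
def rkey (R : Flat Vx Fc) : ℕ := (R.1.getD 1 Vx.b1).2.1

theorem rkey_eq (M N : ℕ) (d : OpD) : ∀ R ∈ OpD.flats M N d, 1 ≤ rkey R ∧ (rkey R - 1) / 4 = d.n := by
  intro R hR
  simp only [OpD.flats, List.mem_cons, List.not_mem_nil, or_false] at hR
  rcases hR with h | h | h | h | h | h | h | h | h | h | h | h | h | h | h | h | h <;> subst h <;>
    simp [rkey, OpD.squad, Vx.u, OpD.pa, OpD.pb, OpD.pc, OpD.pd] <;> omega

theorem flatsd_nodup {M N : ℕ} {d : OpD} (h1 : 0 < d.y) (h2 : d.y < d.z) (h3 : d.z < d.i)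
    (h4 : d.i ≤ d.w) (h5 : d.w < d.v) (h6 : d.v < d.x) (h7 : d.x < N) :
    (OpD.flats M N d).Nodup := by
  apply List.Nodup.of_map (f := fun R : Flat Vx Fc => (R.1.getD 0 Vx.b1, R.1.getD 1 Vx.b1))
  simp only [OpD.flats, OpD.squad, List.map_cons, List.map_nil, List.getD_cons_zero,
    List.getD_cons_succ, List.nodup_cons, List.mem_cons, List.not_mem_nil, not_or,
    not_false_eq_true, List.nodup_nil, and_true]
  repeat' apply And.intro
  all_goals
    intro h
    simp only [Vx.u, Vx.b1, Vx.b2, Vx.p, Vx.q, OpD.pa, OpD.pb, OpD.pc, OpD.pd, OpD.g0, OpD.g1,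
      OpD.g2, Prod.mk.injEq] at h
    omega

theorem NF.flats_nodup {I : NF} (hI : I.OK) : I.data.flats.Nodup := by
  show (I.page0 :: I.opds.flatMap (OpD.flats I.M I.N)).Nodup
  rw [List.nodup_cons]
  obtain ⟨-, -, hN, -⟩ := NF.size hI
  refine ⟨?_, ?_⟩
  · intro h
    simp only [List.mem_flatMap] at h
    obtain ⟨d, -, h⟩ := h
    have h0 := (rkey_eq _ _ _ _ h).1
    have h1 : rkey I.page0 = 0 := by
      obtain ⟨k, hk⟩ : ∃ k, I.N - 1 = k + 2 := ⟨I.N - 3, by omega⟩
      simp [rkey, NF.page0, hk, List.range_succ_eq_map, Vx.u]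
    omega
  · rw [List.nodup_flatMap]
    refine ⟨fun d hd => ?_, ?_⟩
    · obtain ⟨h1, h2, h3, h4, h5, h6, h7, h8, -⟩ := NF.opd_ok hI hd
      exact flatsd_nodup (by omega) (by omega) (by omega) (by omega) (by omega) (by omega)
        (by omega)
    · refine List.Pairwise.imp_of_mem ?_ (opds_nodup I)
      intro d e hd he hde
      simp only [Function.onFun]
      rw [List.disjoint_left]
      intro f h h'
      exact hde (NF.opds_inj hd he ((rkey_eq _ _ _ _ h).2.symm.trans (rkey_eq _ _ _ _ h').2))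

end Pool.Agent.Helper35.G4
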